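import Pool.Agent.PV3.Stmts
import Pool.Agent.Helper20_PV.Mo

/-!
Squad PV3, module TRS: a translate of `K` inside `L`.
-/

set_option autoImplicit false

open MeasureTheory Metric Set Filter Topology

namespace PV3.H19

open PV PV.H20

/-- Inclusion and equal projection volumes give equality. -/
theorem mo_brightness {n : ℕ} (hn : 2 ≤ n) {K L : Set (E n)} (hKc : IsCompact K)
    (hKv : Convex ℝ K) (hLv : Convex ℝ L) (hLf : Full L)
    (hSD : ∀ u : E n, ‖u‖ = 1 → brightness K u = brightness L u) (hKL : K ⊆ L) : K = L := by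
  by_contra hne
  obtain ⟨y, hyL, hyK⟩ : ∃ y ∈ L, y ∉ K := by
    by_contra h
    push Not at h
    exact hne (Subset.antisymm hKL h)
  obtain ⟨f, a0, hf1, hf2⟩ := geometric_hahn_banach_point_closed hKv hKc.isClosed hyK
  set a : E n := (InnerProductSpace.toDual ℝ (E n)).symm f with ha
  have hfa : ∀ v : E n, f v = inner ℝ a v := by
    intro v
    rw [ha, InnerProductSpace.toDual_symm_apply]
  obtain ⟨w, hw, hwa⟩ := exists_unit_orth_one hn a
  have hfproj : ∀ x : E n, f (proj w x) = f x := by
    intro x
    unfold proj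
    rw [map_sub, map_smul, hfa w, real_inner_comm w a, hwa, smul_zero, sub_zero]
  -- a ball in L on the side of y
  obtain ⟨q, hq⟩ := hLf
  obtain ⟨t, ht0, ht1, htf⟩ : ∃ t : ℝ, 0 < t ∧ t ≤ 1 ∧ f (y + t • (q - y)) < a0 := by
    have hcont : Continuous fun t : ℝ => f (y + t • (q - y)) := by fun_prop
    have h0 : f (y + (0 : ℝ) • (q - y)) < a0 := by rw [zero_smul, add_zero]; exact hf1
    have hev : ∀ᶠ t in 𝓝 (0 : ℝ), f (y + t • (q - y)) < a0 :=
      (hcont.tendsto 0).eventually_lt_const h0
    obtain ⟨ε, hε, hball⟩ := Metric.eventually_nhds_iff.1 hev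
    refine ⟨min (ε / 2) 1, lt_min (by positivity) one_pos, min_le_right _ _, ?_⟩
    apply hball
    rw [dist_zero_right, Real.norm_eq_abs, abs_of_pos (lt_min (by positivity) one_pos)]
    exact lt_of_le_of_lt (min_le_left _ _) (by linarith)
  have hq' : y + t • (q - y) ∈ interior L := hLv.add_smul_sub_mem_interior hyL hq ⟨ht0, ht1⟩
  set q' : E n := y + t • (q - y) with hq'def
  have hopen : IsOpen (interior L ∩ {x : E n | f x < a0}) :=
    isOpen_interior.inter (isOpen_lt f.continuous continuous_const)
  obtain ⟨r, hr, hball⟩ := Metric.isOpen_iff.1 hopen q' ⟨hq', htf⟩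
  have hb := hSD w hw
  unfold brightness at hb
  have hpos := hausdorff_proj_ball_pos hw q' hr
  have hfin := hausdorff_proj_lt_top hw hKc
  have hmeas : MeasurableSet (proj w '' K) := by
    refine (hKc.image ?_).measurableSet
    unfold proj
    fun_prop
  have hdisj : Disjoint (proj w '' ball q' r) (proj w '' K) := by
    rw [Set.disjoint_left]
    rintro _ ⟨x, hx, rfl⟩ ⟨x2, hx2, h2⟩
    have h3 : f x < a0 := (hball hx).2
    have h4 := hf2 x2 hx2
    rw [← hfproj x, ← h2, hfproj x2] at h3
    linarith
  have hsub : proj w '' ball q' r ∪ proj w '' K ⊆ proj w '' L := by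
    refine union_subset (image_mono ?_) (image_mono hKL)
    exact fun x hx => interior_subset (hball hx).1
  have h5 := measure_mono (μ := (Measure.hausdorffMeasure ((n : ℝ) - 1) : Measure (E n))) hsub
  rw [measure_union hdisj hmeas, ← hb] at h5
  have h6 : Measure.hausdorffMeasure ((n : ℝ) - 1) (proj w '' K) <
      Measure.hausdorffMeasure ((n : ℝ) - 1) (proj w '' ball q' r) +
        Measure.hausdorffMeasure ((n : ℝ) - 1) (proj w '' K) := by
    rw [add_comm]
    exact ENNReal.lt_add_right hfin.ne hpos.ne'
  exact absurd h5 (not_le.2 h6)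


/-- Translations, as isometries. -/
noncomputable abbrev tr {n : ℕ} (v : E n) : E n ≃ᵢ E n := IsometryEquiv.addLeft v

theorem proj_add {n : ℕ} (u v x : E n) : proj u (v + x) = proj u v + proj u x := by
  unfold proj
  rw [inner_add_left, add_smul]
  abel

theorem proj_image {n : ℕ} (u v : E n) (K : Set (E n)) :
    proj u '' ((fun x => v + x) '' K) = tr (proj u v) '' (proj u '' K) := by
  rw [image_image, image_image]
  refine image_congr fun x _ => ?_
  rw [proj_add]
  rfl

theorem brightness_tr {n : ℕ} (u v : E n) (K : Set (E n)) :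
    brightness ((fun x => v + x) '' K) u = brightness K u := by
  unfold brightness
  rw [proj_image]
  exact (tr (proj u v)).isometry.hausdorffMeasure_image (Or.inr (tr (proj u v)).surjective) _

theorem centroid_tr {n : ℕ} {u : E n} (hu : ‖u‖ = 1) (v : E n) {K : Set (E n)}
    (hKc : IsCompact K) (hKf : Full K) :
    centroid ((fun x => v + x) '' K) u = proj u v + centroid K u := by
  set μ : Measure (E n) := Measure.hausdorffMeasure ((n : ℝ) - 1) with hμ
  set S : Set (E n) := proj u '' K with hS
  have hSc : IsCompact S := by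
    refine hKc.image ?_
    unfold proj
    fun_prop
  have hlt : μ S < ⊤ := hausdorff_proj_lt_top hu hKc
  have hpos : 0 < μ S := by
    obtain ⟨q, hq⟩ := hKf
    obtain ⟨r, hr, hb⟩ := Metric.isOpen_iff.1 isOpen_interior q hq
    exact lt_of_lt_of_le (hausdorff_proj_ball_pos hu q hr)
      (measure_mono (image_mono (hb.trans interior_subset)))
  have hne : (μ S).toReal ≠ 0 := ENNReal.toReal_ne_zero.2 ⟨hpos.ne', hlt.ne⟩
  have hbr : brightness K u = μ S := rfl
  have hint : ∫ x in proj u '' ((fun x => v + x) '' K), x ∂μ =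
      (μ S).toReal • proj u v + ∫ x in S, x ∂μ := by
    rw [proj_image]
    have h1 := ((tr (proj u v)).measurePreserving_hausdorffMeasure ((n : ℝ) - 1)).setIntegral_image_emb
      (tr (proj u v)).toHomeomorph.measurableEmbedding (fun x => x) S
    have h2 : ∫ x in S, (tr (proj u v)) x ∂μ = ∫ x in S, (proj u v + x) ∂μ := rfl
    have hi : IntegrableOn (fun x : E n => x) S μ := by
      obtain ⟨C, hC⟩ := hSc.isBounded.exists_norm_le
      refine Measure.integrableOn_of_bounded hlt.ne measurable_id.aestronglyMeasurable (M := C) ?_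
      exact (ae_restrict_iff' hSc.measurableSet).2 (Eventually.of_forall fun x hx => hC x hx)
    have hc : IntegrableOn (fun _ : E n => proj u v) S μ := by
      refine Measure.integrableOn_of_bounded hlt.ne measurable_const.aestronglyMeasurable
        (M := ‖proj u v‖) ?_
      exact Eventually.of_forall fun x => le_refl _
    rw [h1, h2, integral_add hc hi, setIntegral_const]
    rfl
  unfold centroid
  rw [brightness_tr, hbr, hint, smul_add, smul_smul, inv_mul_cancel₀ hne, one_smul]

theorem trs : TRSStmt := by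
  intro n hn K L x₀ hK hL hSD hsub
  have hKc' : IsCompact ((fun x => x₀ + x) '' K) := hK.cpt.image (by fun_prop)
  have hKv' : Convex ℝ ((fun x => x₀ + x) '' K) := hK.cvx.translate x₀
  have hKL : (fun x => x₀ + x) '' K = L := by
    refine mo_brightness hn hKc' hKv' hL.cvx hL.full ?_ ?_
    · intro u hu
      rw [brightness_tr]
      exact (hSD u hu).1
    · rintro _ ⟨x, hx, rfl⟩
      exact hsub x hx
  obtain ⟨u, hu, hux⟩ := exists_unit_orth_one hn x₀
  have h1 := (hSD u hu).2
  rw [← hKL, centroid_tr hu x₀ hK.cpt hK.full] at h1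
  have h2 : proj u x₀ = 0 := by
    have := h1.symm
    rwa [add_eq_right] at this
  have h3 : x₀ = 0 := by
    unfold proj at h2
    rw [real_inner_comm, hux, zero_smul, sub_zero] at h2
    exact h2
  rw [← hKL, h3]
  simp

end PV3.H19
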